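import Pool.Agent.helper37.L5.Spec

set_option autoImplicit false

namespace Pool.Agent.L5

open Pool.Agent.helper58.DC Pool.Agent.DI Pool.Agent.GR Pool.Agent.OB Pool.Agent.DR Pool.Agent.FI Pool.Agent.FI3 Pool.Agent.FI4 Pool.Agent.FI4I Pool.Agent.LE

theorem LEL (hTPR : Pool.Agent.FI.TPR_stmt) : LEL_stmt := by
  intro p M hS G _ _ D x θ χ hR
  obtain ⟨-, hI, -⟩ := hTPR p M hS G
  have h0 : SB M ⊤ θ χ := (hI θ χ).1 hR.ind
  have h1 : Blk M χ (⊤ : Subgroup G) = Bl M ⊤ θ := by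
    ext ψ
    constructor
    · rintro ⟨h1, h2⟩
      exact ⟨h1, ((hI ψ χ).1 h2).trans h0.symm⟩
    · rintro ⟨h1, h2⟩
      exact ⟨h1, (hI ψ χ).2 (h2.trans h0)⟩
  refine ⟨h1, ?_⟩
  unfold LL Le
  rw [h1]

end Pool.Agent.L5
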